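import Pool.Agent.H474.RZ.Stm

/-!
# RZ: the mean square of the theta series on a segment of a ray
-/

set_option autoImplicit false

open Complex MeasureTheory Filter Topology
open Pool.Agent.H474.RZ

namespace Pool.Agent.H571.RZ.MV

/-- `∑_{z ∈ ℤ} |z|^{-3/2}` -/
noncomputable def Z : ℝ := ∑' z : ℤ, |(z : ℝ)| ^ (-(3 / 2) : ℝ)

theorem Z_nonneg : 0 ≤ Z := tsum_nonneg fun z => by positivity

/-- `n + 1` -/
noncomputable def aa (n : ℕ) : ℝ := (n : ℝ) + 1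

theorem aa_pos (n : ℕ) : 0 < aa n := by unfold aa; positivity

/-- `1 / |N² - M²|`, zero on the diagonal -/
noncomputable def ww (n m : ℕ) : ℝ := 1 / |aa n ^ 2 - aa m ^ 2|

theorem ww_nonneg (n m : ℕ) : 0 ≤ ww n m := by unfold ww; positivity

theorem ww_symm (n m : ℕ) : ww n m = ww m n := by
  unfold ww
  rw [abs_sub_comm]

theorem ww_le (n m : ℕ) :
    ww n m ≤ |(((n : ℤ) - (m : ℤ) : ℤ) : ℝ)| ^ (-(3 / 2) : ℝ) * aa n ^ (-(1 / 2) : ℝ) := by
  by_cases h : n = m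
  · subst h
    have : ww n n = 0 := by simp [ww]
    rw [this]
    have := aa_pos n
    positivity
  · have hn := aa_pos n
    have hm := aa_pos m
    have hd : 0 < |(((n : ℤ) - (m : ℤ) : ℤ) : ℝ)| := by
      rw [abs_pos]
      exact_mod_cast (show (n : ℤ) - (m : ℤ) ≠ 0 by omega)
    have hdd : |(((n : ℤ) - (m : ℤ) : ℤ) : ℝ)| = |aa n - aa m| := by
      congr 1
      unfold aa
      push_cast
      ring
    rw [hdd] at hd ⊢
    obtain ⟨d, hde⟩ : ∃ d, d = |aa n - aa m| := ⟨_, rfl⟩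
    rw [← hde] at hd ⊢
    have h1 : d ≤ aa n + aa m := by
      rw [hde]
      exact abs_le.2 ⟨by linarith, by linarith⟩
    have h2 : |aa n ^ 2 - aa m ^ 2| = d * (aa n + aa m) := by
      rw [hde, show aa n ^ 2 - aa m ^ 2 = (aa n - aa m) * (aa n + aa m) by ring, abs_mul,
        abs_of_pos (by linarith : 0 < aa n + aa m)]
    unfold ww
    rw [h2, Real.rpow_neg hd.le, Real.rpow_neg hn.le, ← mul_inv, one_div]
    apply inv_anti₀ (by positivity)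
    have h3 : d ^ (3 / 2 : ℝ) = d * d ^ (1 / 2 : ℝ) := by
      rw [show (3 / 2 : ℝ) = 1 + 1 / 2 by norm_num, Real.rpow_add hd, Real.rpow_one]
    rw [h3, mul_assoc, ← Real.mul_rpow hd.le hn.le, ← Real.sqrt_eq_rpow]
    apply mul_le_mul_of_nonneg_left _ hd.le
    rw [Real.sqrt_le_left (by linarith)]
    nlinarith

theorem sum_ww (F : Finset ℕ) (n : ℕ) : ∑ m ∈ F, ww n m ≤ Z * aa n ^ (-(1 / 2) : ℝ) := by
  have hs : Summable (fun z : ℤ => |(z : ℝ)| ^ (-(3 / 2) : ℝ)) :=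
    Real.summable_abs_int_rpow (by norm_num : (1 : ℝ) < 3 / 2)
  have hi : Function.Injective (fun m : ℕ => (n : ℤ) - (m : ℤ)) := by
    intro a b hab
    simp only at hab
    omega
  have h1 : ∑ m ∈ F, |(((n : ℤ) - (m : ℤ) : ℤ) : ℝ)| ^ (-(3 / 2) : ℝ) ≤ Z := by
    have h2 := (hs.comp_injective hi).sum_le_tsum F (fun m _ => by
      show 0 ≤ |(((n : ℤ) - (m : ℤ) : ℤ) : ℝ)| ^ (-(3 / 2) : ℝ)
      positivity)
    have h3 := tsum_comp_le_tsum_of_inj hs (fun z => by positivity) hi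
    exact h2.trans h3
  calc ∑ m ∈ F, ww n m ≤ ∑ m ∈ F, |(((n : ℤ) - (m : ℤ) : ℤ) : ℝ)| ^ (-(3 / 2) : ℝ) *
        aa n ^ (-(1 / 2) : ℝ) := Finset.sum_le_sum fun m _ => ww_le n m
    _ = (∑ m ∈ F, |(((n : ℤ) - (m : ℤ) : ℤ) : ℝ)| ^ (-(3 / 2) : ℝ)) * aa n ^ (-(1 / 2) : ℝ) := by
        rw [Finset.sum_mul]
    _ ≤ Z * aa n ^ (-(1 / 2) : ℝ) :=
        mul_le_mul_of_nonneg_right h1 (Real.rpow_nonneg (aa_pos n).le _)

theorem J_bound {K : ℂ} {v0 v1 : ℝ} (hK : K ≠ 0) (h01 : v0 ≤ v1) (hre : 0 ≤ K.re) :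
    ‖∫ v in v0..v1, cexp (-K * v)‖ ≤ 2 * Real.exp (-(K.re * v0)) / ‖K‖ := by
  rw [integral_exp_mul_complex (neg_ne_zero.2 hK), norm_div, norm_neg]
  apply div_le_div_of_nonneg_right _ (norm_nonneg K)
  have h1 : ∀ v : ℝ, ‖cexp (-K * v)‖ = Real.exp (-(K.re * v)) := by
    intro v
    rw [Complex.norm_exp]
    congr 1
    simp
  refine (norm_sub_le _ _).trans ?_
  rw [h1, h1]
  have : Real.exp (-(K.re * v1)) ≤ Real.exp (-(K.re * v0)) :=
    Real.exp_le_exp.2 (by nlinarith)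
  linarith

/-- the terms of the theta series -/
noncomputable def ff (k : ℕ) (θ σ : ℝ) (n : ℕ) (v : ℝ) : ℂ :=
  ((n : ℂ) + 1) ^ (2 * k) *
    cexp (-(((n : ℂ) + 1) ^ 2) * ((Real.pi * v : ℝ) * ((θ : ℂ) + σ * I)))

/-- the exponents -/
noncomputable def KK (θ σ : ℝ) (n m : ℕ) : ℂ :=
  ((Real.pi * (aa n ^ 2 + aa m ^ 2) * θ : ℝ) : ℂ) +
    ((Real.pi * (aa n ^ 2 - aa m ^ 2) * σ : ℝ) : ℂ) * I

theorem ff_eq (k : ℕ) (θ σ : ℝ) (n : ℕ) (v : ℝ) : ff k θ σ n v = ((aa n ^ (2 * k) : ℝ) : ℂ) *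
    cexp (((-(aa n ^ 2 * Real.pi * v * θ) : ℝ) : ℂ) +
      ((-(aa n ^ 2 * Real.pi * v * σ) : ℝ) : ℂ) * I) := by
  unfold ff aa
  push_cast
  congr 2
  ring

theorem ff_mul (k : ℕ) (θ σ : ℝ) (n m : ℕ) (v : ℝ) :
    ff k θ σ n v * (starRingEnd ℂ) (ff k θ σ m v) =
      ((aa n ^ (2 * k) * aa m ^ (2 * k) : ℝ) : ℂ) * cexp (-KK θ σ n m * v) := by
  rw [ff_eq, ff_eq, map_mul, ← Complex.exp_conj, map_add, map_mul, Complex.conj_ofReal,
    Complex.conj_ofReal, Complex.conj_ofReal, Complex.conj_I]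
  have e : -KK θ σ n m * v = (((-(aa n ^ 2 * Real.pi * v * θ) : ℝ) : ℂ) +
      ((-(aa n ^ 2 * Real.pi * v * σ) : ℝ) : ℂ) * I) +
      (((-(aa m ^ 2 * Real.pi * v * θ) : ℝ) : ℂ) +
      ((-(aa m ^ 2 * Real.pi * v * σ) : ℝ) : ℂ) * -I) := by
    unfold KK
    push_cast
    ring
  rw [e]
  generalize (((-(aa n ^ 2 * Real.pi * v * θ) : ℝ) : ℂ) +
      ((-(aa n ^ 2 * Real.pi * v * σ) : ℝ) : ℂ) * I) = X
  generalize (((-(aa m ^ 2 * Real.pi * v * θ) : ℝ) : ℂ) +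
      ((-(aa m ^ 2 * Real.pi * v * σ) : ℝ) : ℂ) * -I) = Y
  rw [Complex.exp_add, Complex.ofReal_mul]
  ring

theorem ff_cont (k : ℕ) (θ σ : ℝ) (n : ℕ) : Continuous (ff k θ σ n) := by
  unfold ff
  fun_prop

theorem fin_id (k : ℕ) (θ σ v0 v1 : ℝ) (F : Finset ℕ) :
    ((∫ v in v0..v1, ‖∑ n ∈ F, ff k θ σ n v‖ ^ 2 : ℝ) : ℂ) =
      ∑ n ∈ F, ∑ m ∈ F, ((aa n ^ (2 * k) * aa m ^ (2 * k) : ℝ) : ℂ) *
        ∫ v in v0..v1, cexp (-KK θ σ n m * v) := by
  rw [← intervalIntegral.integral_ofReal]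
  have h1 : ∀ v : ℝ, ((‖∑ n ∈ F, ff k θ σ n v‖ ^ 2 : ℝ) : ℂ) =
      ∑ n ∈ F, ∑ m ∈ F, ((aa n ^ (2 * k) * aa m ^ (2 * k) : ℝ) : ℂ) *
        cexp (-KK θ σ n m * v) := by
    intro v
    have h2 : ((‖∑ n ∈ F, ff k θ σ n v‖ ^ 2 : ℝ) : ℂ) =
        (∑ n ∈ F, ff k θ σ n v) * (starRingEnd ℂ) (∑ n ∈ F, ff k θ σ n v) := by
      rw [Complex.mul_conj']
      push_cast
      rfl
    rw [h2, map_sum, Finset.sum_mul_sum]
    exact Finset.sum_congr rfl fun n _ => Finset.sum_congr rfl fun m _ => ff_mul k θ σ n m v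
  simp only [h1]
  rw [intervalIntegral.integral_finsetSum (fun n _ => by
    apply Continuous.intervalIntegrable
    fun_prop)]
  refine Finset.sum_congr rfl fun n _ => ?_
  rw [intervalIntegral.integral_finsetSum (fun m _ => by
    apply Continuous.intervalIntegrable
    fun_prop)]
  refine Finset.sum_congr rfl fun m _ => ?_
  rw [intervalIntegral.integral_const_mul]

/-- the diagonal integrals -/
noncomputable def dd (θ v0 v1 : ℝ) (n : ℕ) : ℝ :=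
  ∫ v in v0..v1, Real.exp (-(aa n ^ 2 * (2 * Real.pi * θ * v)))

theorem J_diag (θ σ v0 v1 : ℝ) (n : ℕ) :
    ∫ v in v0..v1, cexp (-KK θ σ n n * v) = ((dd θ v0 v1 n : ℝ) : ℂ) := by
  unfold dd
  rw [← intervalIntegral.integral_ofReal]
  congr 1
  funext v
  rw [Complex.ofReal_exp]
  congr 1
  unfold KK
  push_cast
  ring

/-- `N^{2k} exp(-N² π θ v)` -/
noncomputable def AA (k : ℕ) (θ v : ℝ) (n : ℕ) : ℝ :=
  aa n ^ (2 * k) * Real.exp (-(aa n ^ 2 * (Real.pi * θ * v)))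

theorem off_bound {k : ℕ} {θ σ v0 v1 : ℝ} (hθ : 0 < θ) (hσ : 1 / 2 ≤ σ) (h01 : v0 ≤ v1)
    {n m : ℕ} (hnm : m ≠ n) :
    aa n ^ (2 * k) * aa m ^ (2 * k) * ‖∫ v in v0..v1, cexp (-KK θ σ n m * v)‖ ≤
      2 / Real.pi * ((AA k θ v0 n ^ 2 + AA k θ v0 m ^ 2) * ww n m) := by
  have hn := aa_pos n
  have hm := aa_pos m
  have hpi := Real.pi_pos
  have hne : aa n ^ 2 - aa m ^ 2 ≠ 0 := by
    intro h
    have h1 : (aa n - aa m) * (aa n + aa m) = 0 := by rw [← h]; ring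
    rcases mul_eq_zero.1 h1 with h2 | h2
    · apply hnm
      have : (n : ℝ) = (m : ℝ) := by
        unfold aa at h2
        linarith
      exact_mod_cast this.symm
    · linarith
  have habs : 0 < |aa n ^ 2 - aa m ^ 2| := abs_pos.2 hne
  have hre : (KK θ σ n m).re = Real.pi * (aa n ^ 2 + aa m ^ 2) * θ := by
    unfold KK
    rw [Complex.add_re, Complex.ofReal_re, Complex.re_ofReal_mul, Complex.I_re, mul_zero, add_zero]
  have him : (KK θ σ n m).im = Real.pi * (aa n ^ 2 - aa m ^ 2) * σ := by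
    unfold KK
    rw [Complex.add_im, Complex.ofReal_im, Complex.im_ofReal_mul, Complex.I_im, mul_one, zero_add]
  have hnorm : Real.pi / 2 * |aa n ^ 2 - aa m ^ 2| ≤ ‖KK θ σ n m‖ := by
    refine le_trans ?_ (Complex.abs_im_le_norm _)
    rw [him, abs_mul, abs_mul, abs_of_pos hpi, abs_of_pos (by linarith : 0 < σ)]
    have := mul_le_mul_of_nonneg_left hσ (by positivity : 0 ≤ Real.pi * |aa n ^ 2 - aa m ^ 2|)
    linarith
  have hK0 : 0 < ‖KK θ σ n m‖ := lt_of_lt_of_le (by positivity) hnorm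
  have h1 := J_bound (v0 := v0) (v1 := v1) (norm_pos_iff.1 hK0) h01 (by rw [hre]; positivity)
  have h2 : 2 * Real.exp (-((KK θ σ n m).re * v0)) / ‖KK θ σ n m‖ ≤
      2 * Real.exp (-((KK θ σ n m).re * v0)) / (Real.pi / 2 * |aa n ^ 2 - aa m ^ 2|) :=
    div_le_div_of_nonneg_left (by positivity) (by positivity) hnorm
  have h3 : Real.exp (-((KK θ σ n m).re * v0)) =
      Real.exp (-(aa n ^ 2 * (Real.pi * θ * v0))) * Real.exp (-(aa m ^ 2 * (Real.pi * θ * v0))) := by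
    rw [← Real.exp_add, hre]
    congr 1
    ring
  calc aa n ^ (2 * k) * aa m ^ (2 * k) * ‖∫ v in v0..v1, cexp (-KK θ σ n m * v)‖
      ≤ aa n ^ (2 * k) * aa m ^ (2 * k) * (2 * Real.exp (-((KK θ σ n m).re * v0)) /
        (Real.pi / 2 * |aa n ^ 2 - aa m ^ 2|)) :=
        mul_le_mul_of_nonneg_left (h1.trans h2) (by positivity)
    _ = 2 / Real.pi * ((2 * AA k θ v0 n * AA k θ v0 m) * ww n m) := by
        rw [h3]
        unfold AA ww
        field_simp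
    _ ≤ 2 / Real.pi * ((AA k θ v0 n ^ 2 + AA k θ v0 m ^ 2) * ww n m) := by
        apply mul_le_mul_of_nonneg_left _ (by positivity)
        apply mul_le_mul_of_nonneg_right _ (ww_nonneg n m)
        exact two_mul_le_add_sq _ _

/-- the terms of the error -/
noncomputable def EE (k : ℕ) (θ v0 : ℝ) (n : ℕ) : ℝ :=
  ((n : ℝ) + 1) ^ (4 * (k : ℝ) - 1 / 2) * Real.exp (-(((n : ℝ) + 1) ^ 2 * (2 * Real.pi * θ * v0)))

theorem AA_sq (k : ℕ) (θ v0 : ℝ) (n : ℕ) :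
    AA k θ v0 n ^ 2 * aa n ^ (-(1 / 2) : ℝ) = EE k θ v0 n := by
  have hn := aa_pos n
  unfold AA EE
  have e1 : ((n : ℝ) + 1) = aa n := rfl
  have e2 : aa n ^ (4 * (k : ℝ) - 1 / 2) = (aa n ^ (2 * k)) ^ 2 * aa n ^ (-(1 / 2) : ℝ) := by
    rw [sub_eq_add_neg, Real.rpow_add hn]
    congr 1
    rw [← pow_mul, ← Real.rpow_natCast]
    congr 1
    push_cast
    ring
  have e3 : Real.exp (-(aa n ^ 2 * (2 * Real.pi * θ * v0))) =
      Real.exp (-(aa n ^ 2 * (Real.pi * θ * v0))) ^ 2 := by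
    rw [← Real.exp_nat_mul]
    congr 1
    push_cast
    ring
  rw [e1, e2, e3]
  ring

theorem fin_bound {k : ℕ} {θ σ v0 v1 : ℝ} (hθ : 0 < θ) (hσ : 1 / 2 ≤ σ) (h01 : v0 ≤ v1)
    (F : Finset ℕ) :
    |(∫ v in v0..v1, ‖∑ n ∈ F, ff k θ σ n v‖ ^ 2) - ∑ n ∈ F, aa n ^ (4 * k) * dd θ v0 v1 n| ≤
      4 / Real.pi * Z * ∑ n ∈ F, EE k θ v0 n := by
  classical
  have hpi := Real.pi_pos
  have h1 := fin_id k θ σ v0 v1 F
  have h2 : ((∫ v in v0..v1, ‖∑ n ∈ F, ff k θ σ n v‖ ^ 2 : ℝ) : ℂ) -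
      ((∑ n ∈ F, aa n ^ (4 * k) * dd θ v0 v1 n : ℝ) : ℂ) =
      ∑ n ∈ F, ∑ m ∈ F.erase n, ((aa n ^ (2 * k) * aa m ^ (2 * k) : ℝ) : ℂ) *
        ∫ v in v0..v1, cexp (-KK θ σ n m * v) := by
    rw [h1, Complex.ofReal_sum, ← Finset.sum_sub_distrib]
    refine Finset.sum_congr rfl fun n hn => ?_
    rw [← Finset.add_sum_erase F _ hn, J_diag]
    have e : ((aa n ^ (2 * k) * aa n ^ (2 * k) : ℝ) : ℂ) * ((dd θ v0 v1 n : ℝ) : ℂ) =
        ((aa n ^ (4 * k) * dd θ v0 v1 n : ℝ) : ℂ) := by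
      rw [← Complex.ofReal_mul]
      congr 1
      ring
    rw [e]
    ring
  have h3 : |(∫ v in v0..v1, ‖∑ n ∈ F, ff k θ σ n v‖ ^ 2) -
      ∑ n ∈ F, aa n ^ (4 * k) * dd θ v0 v1 n| =
      ‖∑ n ∈ F, ∑ m ∈ F.erase n, ((aa n ^ (2 * k) * aa m ^ (2 * k) : ℝ) : ℂ) *
        ∫ v in v0..v1, cexp (-KK θ σ n m * v)‖ := by
    rw [← h2, ← Complex.ofReal_sub, Complex.norm_real, Real.norm_eq_abs]
  rw [h3]
  calc ‖∑ n ∈ F, ∑ m ∈ F.erase n, ((aa n ^ (2 * k) * aa m ^ (2 * k) : ℝ) : ℂ) *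
        ∫ v in v0..v1, cexp (-KK θ σ n m * v)‖
      ≤ ∑ n ∈ F, ∑ m ∈ F.erase n, 2 / Real.pi * ((AA k θ v0 n ^ 2 + AA k θ v0 m ^ 2) * ww n m) := by
        refine (norm_sum_le _ _).trans (Finset.sum_le_sum fun n _ => ?_)
        refine (norm_sum_le _ _).trans (Finset.sum_le_sum fun m hm => ?_)
        have hn0 := aa_pos n
        have hm0 := aa_pos m
        rw [norm_mul, Complex.norm_real, Real.norm_of_nonneg (by positivity)]
        exact off_bound hθ hσ h01 (Finset.ne_of_mem_erase hm)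
    _ ≤ ∑ n ∈ F, ∑ m ∈ F, 2 / Real.pi * ((AA k θ v0 n ^ 2 + AA k θ v0 m ^ 2) * ww n m) := by
        refine Finset.sum_le_sum fun n _ => Finset.sum_le_sum_of_subset_of_nonneg
          (Finset.erase_subset n F) fun m _ _ => ?_
        have := ww_nonneg n m
        positivity
    _ = 2 / Real.pi * (∑ n ∈ F, ∑ m ∈ F, AA k θ v0 n ^ 2 * ww n m +
          ∑ n ∈ F, ∑ m ∈ F, AA k θ v0 m ^ 2 * ww n m) := by
        have ea : ∀ n, ∑ m ∈ F, 2 / Real.pi * ((AA k θ v0 n ^ 2 + AA k θ v0 m ^ 2) * ww n m) =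
            2 / Real.pi * (∑ m ∈ F, AA k θ v0 n ^ 2 * ww n m) +
              2 / Real.pi * ∑ m ∈ F, AA k θ v0 m ^ 2 * ww n m := by
          intro n
          have eb : ∀ m, 2 / Real.pi * ((AA k θ v0 n ^ 2 + AA k θ v0 m ^ 2) * ww n m) =
              2 / Real.pi * (AA k θ v0 n ^ 2 * ww n m) +
                2 / Real.pi * (AA k θ v0 m ^ 2 * ww n m) := fun m => by ring
          rw [Finset.sum_congr rfl fun m _ => eb m, Finset.sum_add_distrib,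
            Finset.mul_sum F (fun m => AA k θ v0 n ^ 2 * ww n m),
            Finset.mul_sum F (fun m => AA k θ v0 m ^ 2 * ww n m)]
        rw [Finset.sum_congr rfl fun n _ => ea n, Finset.sum_add_distrib,
          ← Finset.mul_sum, ← Finset.mul_sum]
        ring
    _ = 4 / Real.pi * ∑ n ∈ F, AA k θ v0 n ^ 2 * ∑ m ∈ F, ww n m := by
        have e : ∑ n ∈ F, ∑ m ∈ F, AA k θ v0 m ^ 2 * ww n m =
            ∑ n ∈ F, ∑ m ∈ F, AA k θ v0 n ^ 2 * ww n m := by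
          rw [Finset.sum_comm]
          exact Finset.sum_congr rfl fun n _ => Finset.sum_congr rfl fun m _ => by rw [ww_symm]
        have ec : ∀ n, ∑ m ∈ F, AA k θ v0 n ^ 2 * ww n m =
            AA k θ v0 n ^ 2 * ∑ m ∈ F, ww n m := fun n => by rw [Finset.mul_sum]
        rw [e, Finset.sum_congr rfl fun n _ => ec n]
        ring
    _ ≤ 4 / Real.pi * ∑ n ∈ F, AA k θ v0 n ^ 2 * (Z * aa n ^ (-(1 / 2) : ℝ)) := by
        apply mul_le_mul_of_nonneg_left _ (by positivity)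
        refine Finset.sum_le_sum fun n _ => ?_
        exact mul_le_mul_of_nonneg_left (sum_ww F n) (by positivity)
    _ = 4 / Real.pi * Z * ∑ n ∈ F, EE k θ v0 n := by
        have ed : ∀ n, AA k θ v0 n ^ 2 * (Z * aa n ^ (-(1 / 2) : ℝ)) = Z * EE k θ v0 n := by
          intro n
          rw [← AA_sq]
          ring
        rw [Finset.sum_congr rfl fun n _ => ed n, ← Finset.mul_sum]
        ring

/-- the terms of the diagonal -/
noncomputable def DD' (k : ℕ) (θ v : ℝ) (n : ℕ) : ℝ :=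
  ((n : ℝ) + 1) ^ (4 * (k : ℝ)) * Real.exp (-(((n : ℝ) + 1) ^ 2 * (2 * Real.pi * θ * v)))

theorem DD'_eq (k : ℕ) (θ v : ℝ) (n : ℕ) :
    DD' k θ v n = aa n ^ (4 * k) * Real.exp (-(aa n ^ 2 * (2 * Real.pi * θ * v))) := by
  unfold DD'
  have e1 : ((n : ℝ) + 1) = aa n := rfl
  rw [e1, ← Real.rpow_natCast (aa n) (4 * k)]
  congr 2
  push_cast
  ring

theorem DD'_summable (k : ℕ) {θ v : ℝ} (hθ : 0 < θ) (hv : 0 < v) : Summable (DD' k θ v) := by
  have hpi := Real.pi_pos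
  have h := Pool.Agent.Helper242.RK.summable_bound (2 * k)
    (by positivity : 0 < 2 * Real.pi * θ * v)
  refine h.congr fun n => ?_
  rw [DD'_eq]
  unfold aa
  have e : 2 * (2 * k) = 4 * k := by ring
  rw [e, neg_mul]

theorem EE_summable (k : ℕ) {θ v : ℝ} (hθ : 0 < θ) (hv : 0 < v) : Summable (EE k θ v) := by
  refine Summable.of_nonneg_of_le (fun n => ?_) (fun n => ?_) (DD'_summable k hθ hv)
  · unfold EE
    positivity
  · unfold EE DD'
    apply mul_le_mul_of_nonneg_right _ (Real.exp_pos _).le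
    have : (0 : ℝ) ≤ n := Nat.cast_nonneg n
    exact Real.rpow_le_rpow_of_exponent_le (by linarith) (by linarith)

theorem dd_bounds {θ v0 v1 : ℝ} (hθ : 0 < θ) (h01 : v0 ≤ v1) (n : ℕ) :
    (v1 - v0) * Real.exp (-(aa n ^ 2 * (2 * Real.pi * θ * v1))) ≤ dd θ v0 v1 n ∧
      dd θ v0 v1 n ≤ (v1 - v0) * Real.exp (-(aa n ^ 2 * (2 * Real.pi * θ * v0))) := by
  have hpi := Real.pi_pos
  have hn := aa_pos n
  have hc : Continuous fun v : ℝ => Real.exp (-(aa n ^ 2 * (2 * Real.pi * θ * v))) := by fun_prop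
  have hmono : ∀ v w : ℝ, v ≤ w → Real.exp (-(aa n ^ 2 * (2 * Real.pi * θ * w))) ≤
      Real.exp (-(aa n ^ 2 * (2 * Real.pi * θ * v))) := by
    intro v w hvw
    apply Real.exp_le_exp.2
    have : aa n ^ 2 * (2 * Real.pi * θ * v) ≤ aa n ^ 2 * (2 * Real.pi * θ * w) := by gcongr
    linarith
  constructor
  · have h1 : ∫ _ in v0..v1, Real.exp (-(aa n ^ 2 * (2 * Real.pi * θ * v1))) ≤ dd θ v0 v1 n :=
      intervalIntegral.integral_mono_on h01 intervalIntegrable_const (hc.intervalIntegrable _ _)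
        fun v hv => hmono v v1 hv.2
    rwa [intervalIntegral.integral_const, smul_eq_mul] at h1
  · have h1 : dd θ v0 v1 n ≤ ∫ _ in v0..v1, Real.exp (-(aa n ^ 2 * (2 * Real.pi * θ * v0))) :=
      intervalIntegral.integral_mono_on h01 (hc.intervalIntegrable _ _) intervalIntegrable_const
        fun v hv => hmono v0 v hv.1
    rwa [intervalIntegral.integral_const, smul_eq_mul] at h1

theorem fin_lower {k : ℕ} {θ σ v0 v1 : ℝ} (hθ : 0 < θ) (hσ : 1 / 2 ≤ σ) (h01 : v0 ≤ v1)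
    (F : Finset ℕ) :
    (v1 - v0) * ∑ n ∈ F, DD' k θ v1 n - 4 / Real.pi * Z * ∑ n ∈ F, EE k θ v0 n ≤
      ∫ v in v0..v1, ‖∑ n ∈ F, ff k θ σ n v‖ ^ 2 := by
  have h1 := (abs_le.1 (fin_bound (k := k) hθ hσ h01 F)).1
  have h2 : (v1 - v0) * ∑ n ∈ F, DD' k θ v1 n ≤ ∑ n ∈ F, aa n ^ (4 * k) * dd θ v0 v1 n := by
    rw [Finset.mul_sum]
    refine Finset.sum_le_sum fun n _ => ?_
    have hn := aa_pos n
    have := mul_le_mul_of_nonneg_left (dd_bounds hθ h01 n).1 (by positivity : 0 ≤ aa n ^ (4 * k))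
    rw [DD'_eq]
    linarith
  linarith

theorem fin_upper {k : ℕ} {θ σ v0 v1 : ℝ} (hθ : 0 < θ) (hσ : 1 / 2 ≤ σ) (h01 : v0 ≤ v1)
    (F : Finset ℕ) :
    ∫ v in v0..v1, ‖∑ n ∈ F, ff k θ σ n v‖ ^ 2 ≤
      (v1 - v0) * ∑ n ∈ F, DD' k θ v0 n + 4 / Real.pi * Z * ∑ n ∈ F, EE k θ v0 n := by
  have h1 := (abs_le.1 (fin_bound (k := k) hθ hσ h01 F)).2
  have h2 : ∑ n ∈ F, aa n ^ (4 * k) * dd θ v0 v1 n ≤ (v1 - v0) * ∑ n ∈ F, DD' k θ v0 n := by
    rw [Finset.mul_sum]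
    refine Finset.sum_le_sum fun n _ => ?_
    have hn := aa_pos n
    have := mul_le_mul_of_nonneg_left (dd_bounds hθ h01 n).2 (by positivity : 0 ≤ aa n ^ (4 * k))
    rw [DD'_eq]
    linarith
  linarith

theorem ff_norm_le {k : ℕ} {θ σ v0 v : ℝ} (hθ : 0 < θ) (hv : v0 ≤ v) (n : ℕ) :
    ‖ff k θ σ n v‖ ≤ ((n : ℝ) + 1) ^ (2 * k) *
      Real.exp (-(((n : ℝ) + 1) ^ 2) * (Real.pi * v0 * θ)) := by
  have hpi := Real.pi_pos
  apply Pool.Agent.Helper242.RK.norm_term_le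
  have e : (((Real.pi * v : ℝ) : ℂ) * ((θ : ℂ) + σ * I)).re = Real.pi * v * θ := by
    rw [Complex.re_ofReal_mul]
    simp
  rw [e]
  gcongr

theorem lim_int {k : ℕ} {θ σ v0 v1 : ℝ} (hθ : 0 < θ) (hv0 : 0 < v0) (h01 : v0 ≤ v1) :
    Tendsto (fun R : ℕ => ∫ v in v0..v1, ‖∑ n ∈ Finset.range R, ff k θ σ n v‖ ^ 2) atTop
      (𝓝 (∫ v in v0..v1, ‖Pk k ((Real.pi * v : ℝ) * ((θ : ℂ) + σ * I))‖ ^ 2)) := by
  have hpi := Real.pi_pos
  have hs := Pool.Agent.Helper242.RK.summable_bound k (by positivity : 0 < Real.pi * v0 * θ)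
  obtain ⟨B, hB⟩ : ∃ B : ℝ, B = ∑' n : ℕ, ((n : ℝ) + 1) ^ (2 * k) *
      Real.exp (-(((n : ℝ) + 1) ^ 2) * (Real.pi * v0 * θ)) := ⟨_, rfl⟩
  apply intervalIntegral.tendsto_integral_filter_of_dominated_convergence (fun _ => B ^ 2)
  · refine Filter.Eventually.of_forall fun R => ?_
    apply Continuous.aestronglyMeasurable
    have : Continuous fun v => ∑ n ∈ Finset.range R, ff k θ σ n v :=
      continuous_finsetSum _ fun n _ => ff_cont k θ σ n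
    exact this.norm.pow 2
  · refine Filter.Eventually.of_forall fun R => Filter.Eventually.of_forall fun v hv => ?_
    rw [Set.uIoc_of_le h01] at hv
    rw [Real.norm_of_nonneg (by positivity)]
    apply pow_le_pow_left₀ (norm_nonneg _)
    refine (norm_sum_le _ _).trans ?_
    refine (Finset.sum_le_sum fun n _ => ff_norm_le hθ hv.1.le n).trans ?_
    rw [hB]
    exact hs.sum_le_tsum _ fun n _ => by positivity
  · exact intervalIntegrable_const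
  · refine Filter.Eventually.of_forall fun v hv => ?_
    rw [Set.uIoc_of_le h01] at hv
    have hsv : Summable fun n : ℕ => ff k θ σ n v :=
      Summable.of_norm_bounded hs fun n => ff_norm_le hθ hv.1.le n
    have h1 := hsv.hasSum.tendsto_sum_nat
    exact (h1.norm).pow 2

theorem t_MV : S_MV := by
  have hpi := Real.pi_pos
  have hZ := Z_nonneg
  refine ⟨4 / Real.pi * Z + 1, by positivity, ?_⟩
  intro k θ σ v0 v1 hθ hσ hv0 h01
  have hv1 : 0 < v1 := hv0.trans_le h01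
  have hl := lim_int (k := k) (θ := θ) (σ := σ) hθ hv0 h01
  have hE := (EE_summable k hθ hv0).hasSum.tendsto_sum_nat
  have hD0 := (DD'_summable k hθ hv0).hasSum.tendsto_sum_nat
  have hD1 := (DD'_summable k hθ hv1).hasSum.tendsto_sum_nat
  have eE : ∑' n, EE k θ v0 n = Dg (4 * k - 1 / 2) (2 * Real.pi * θ * v0) := rfl
  have eD0 : ∑' n, DD' k θ v0 n = Dg (4 * k) (2 * Real.pi * θ * v0) := rfl
  have eD1 : ∑' n, DD' k θ v1 n = Dg (4 * k) (2 * Real.pi * θ * v1) := rfl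
  have hE0 : 0 ≤ ∑' n, EE k θ v0 n := tsum_nonneg fun n => by
    unfold EE
    positivity
  have lo := le_of_tendsto_of_tendsto' ((hD1.const_mul (v1 - v0)).sub
    (hE.const_mul (4 / Real.pi * Z))) hl fun R => fin_lower hθ hσ h01 (Finset.range R)
  have up := le_of_tendsto_of_tendsto' hl ((hD0.const_mul (v1 - v0)).add
    (hE.const_mul (4 / Real.pi * Z))) fun R => fin_upper hθ hσ h01 (Finset.range R)
  rw [eE] at hE0
  rw [eE, eD1] at lo
  rw [eE, eD0] at up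
  constructor
  · linarith
  · linarith

end Pool.Agent.H571.RZ.MV
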